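import Pool.Agent.CYE.StmtsB

set_option autoImplicit false

namespace Pool.Agent.CYE.H49

open Polynomial Pool.Agent.CYE

theorem sum_count_le {L : Type} [DecidableEq L] (s : Finset L) (R : Multiset L) :
    ∑ x ∈ s, R.count x ≤ Multiset.card R := by
  calc ∑ x ∈ s, R.count x ≤ ∑ x ∈ s ∪ R.toFinset, R.count x :=
        Finset.sum_le_sum_of_subset Finset.subset_union_left
    _ = Multiset.card R := Multiset.sum_count_eq_card fun a ha =>
        Finset.mem_union_right _ (Multiset.mem_toFinset.mpr ha)

theorem qpol {p m : ℕ} {g h : ℤ[X]} (hbaf : BafStmt) (F : Fm p m g h) (L : Type) [Field L]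
    [CharP L p] : derivative (X * derivative (cyclotomic m L)) ≠ 0 ∧
      (derivative (X * derivative (cyclotomic m L))).natDegree ≤ m.totient := by
  obtain ⟨h5, hpm, -, h2, -⟩ := hbaf p m g h F
  have hc1 : (cyclotomic m L).coeff m.totient = 1 := by
    have h1 := (cyclotomic.monic m L).coeff_natDegree
    rwa [natDegree_cyclotomic] at h1
  constructor
  · intro h0
    have h1 : (derivative (X * derivative (cyclotomic m L))).coeff (m.totient - 1) = 0 := by
      rw [h0, coeff_zero]
    obtain ⟨k, hk⟩ : ∃ k, m.totient = k + 1 := ⟨m.totient - 1, by omega⟩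
    rw [hk] at h1 hc1
    simp only [Nat.add_sub_cancel] at h1
    rw [coeff_derivative, coeff_X_mul, coeff_derivative, hc1] at h1
    have h3 : ((m.totient : ℕ) : L) ≠ 0 := by
      rw [Ne, CharP.cast_eq_zero_iff L p]
      exact hpm
    rw [hk] at h3
    apply h3
    push_cast
    have h4 : (1 * ((k : L) + 1)) * ((k : L) + 1) = 0 := h1
    rw [one_mul] at h4
    exact mul_self_eq_zero.mp h4
  · calc (derivative (X * derivative (cyclotomic m L))).natDegree
          ≤ (X * derivative (cyclotomic m L)).natDegree - 1 := natDegree_derivative_le _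
      _ ≤ (1 + ((cyclotomic m L).natDegree - 1)) - 1 := by
          apply Nat.sub_le_sub_right
          refine natDegree_mul_le.trans ?_
          rw [natDegree_X]
          exact Nat.add_le_add_left (natDegree_derivative_le _) _
      _ ≤ m.totient := by rw [natDegree_cyclotomic]; omega

theorem cjm (hbaf : BafStmt) (hevl : EvlStmt) : CjmStmt := by
  intro ι _ _ q _ p m g h L _ a α S
  classical
  have := S.chr
  obtain ⟨-, hinv, -, -, hinj, -⟩ := hevl ι q L α S.pri S.inj
  obtain ⟨hQ0, hQd⟩ := qpol hbaf S.F L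
  have hA : ∑ b ∈ Un q, jm m (ev α b) ≤ m.totient := by
    have h1 : ∑ b ∈ Un q, jm m (ev α b) = ∑ x ∈ (Un q).image (ev α),
        (derivative (X * derivative (cyclotomic m L))).roots.count x := by
      rw [Finset.sum_image fun x _ y _ hxy => hinj x y hxy]
      refine Finset.sum_congr rfl fun b _ => ?_
      rw [count_roots]
      rfl
    rw [h1]
    exact (sum_count_le _ _).trans ((card_roots' _).trans hQd)
  refine ⟨hA, fun J => ?_⟩
  have hB : ∑ b ∈ Un q, jm m (ev α b)⁻¹ ≤ m.totient := by
    have h1 : ∑ b ∈ Un q, jm m (ev α b)⁻¹ = ∑ b ∈ Un q, jm m (ev α b) := by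
      refine Finset.sum_nbij' (fun b => -b) (fun b => -b) ?_ ?_ ?_ ?_ ?_
      · intro b hb
        simp only [Un, Finset.mem_filter, Finset.mem_univ, true_and, Pi.neg_apply, ne_eq,
          neg_eq_zero] at hb ⊢
        exact hb
      · intro b hb
        simp only [Un, Finset.mem_filter, Finset.mem_univ, true_and, Pi.neg_apply, ne_eq,
          neg_eq_zero] at hb ⊢
        exact hb
      · intro b _; exact neg_neg b
      · intro b _; exact neg_neg b
      · intro b _
        rw [(hinv b).2.2]
    rw [h1]; exact hA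
  calc J * ((Un q).filter fun b => ¬ jm m (ev α b) + jm m (ev α b)⁻¹ + 1 ≤ J).card
      = ∑ b ∈ (Un q).filter fun b => ¬ jm m (ev α b) + jm m (ev α b)⁻¹ + 1 ≤ J, J := by
        rw [Finset.sum_const, smul_eq_mul, mul_comm]
    _ ≤ ∑ b ∈ (Un q).filter fun b => ¬ jm m (ev α b) + jm m (ev α b)⁻¹ + 1 ≤ J,
          (jm m (ev α b) + jm m (ev α b)⁻¹) := by
        refine Finset.sum_le_sum fun b hb => ?_
        have := (Finset.mem_filter.mp hb).2
        omega
    _ ≤ ∑ b ∈ Un q, (jm m (ev α b) + jm m (ev α b)⁻¹) :=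
        Finset.sum_le_sum_of_subset (Finset.filter_subset _ _)
    _ ≤ 2 * m.totient := by
        rw [Finset.sum_add_distrib]
        omega

end Pool.Agent.CYE.H49
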