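import Pool.Agent.CYE.StmtsB
import Pool.Agent.CYE.StmtsD

set_option autoImplicit false

namespace Pool.Agent.CYE.H49

open Polynomial Pool.Agent.CYE

section

variable {ι : Type} {q : ι → ℕ} [∀ i, Fact (q i).Prime]

theorem qne (hinj : Function.Injective q) {i j : ι} (hij : j ≠ i) : (q i : ZMod (q j)) ≠ 0 := by
  rw [Ne, ZMod.natCast_eq_zero_iff]
  intro hd
  have hi : (q i).Prime := Fact.out
  have hj : (q j).Prime := Fact.out
  rcases (Nat.dvd_prime hi).mp hd with h1 | h1
  · exact hj.one_lt.ne' h1
  · exact hij (hinj h1)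

variable [DecidableEq ι]

theorem fr_inj (hinj : Function.Injective q) (i : ι) (b b' : Pt q)
    (h : (fr i b : Pt q) = fr i b') : b = b' := by
  funext j
  have h1 := congrFun h j
  simp only [fr] at h1
  by_cases hj : j = i
  · rwa [if_pos hj, if_pos hj] at h1
  · rw [if_neg hj, if_neg hj] at h1
    exact mul_left_cancel₀ (qne hinj hj) h1

theorem om_fr (hinj : Function.Injective q) {sm lg : List ι} (hn : (sm ++ lg).Nodup) {i : ι}
    (hi : i ∈ sm) (w : Pt q × Pt q) (hw : Om sm lg w) : Om sm lg (fr i w.1, fr i w.2) := by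
  obtain ⟨h1, h2, h3⟩ := hw
  have hne : ∀ j ∈ lg, j ≠ i := fun j hj hji =>
    (List.nodup_append.mp hn).2.2 i hi j hj hji.symm
  refine ⟨fun j => ?_, fun j hj => ?_, fun j hj => ?_⟩
  · show (fr i w.1 : Pt q) j ≠ 0
    simp only [fr]
    by_cases hji : j = i
    · rw [if_pos hji]; exact h1 j
    · rw [if_neg hji]; exact mul_ne_zero (qne hinj hji) (h1 j)
  · show (fr i w.2 : Pt q) j = 0
    simp only [fr, h2 j hj, mul_zero, ite_self]
  · have hji := hne j hj
    show (fr i w.2 : Pt q) j ≠ 0 ∧ (fr i w.1 : Pt q) j + (fr i w.2 : Pt q) j ≠ 0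
    simp only [fr]
    rw [if_neg hji, if_neg hji, ← mul_add]
    exact ⟨mul_ne_zero (qne hinj hji) (h3 j hj).1, mul_ne_zero (qne hinj hji) (h3 j hj).2⟩

omit [∀ i, Fact (q i).Prime] [DecidableEq ι] in
theorem mt_le (m : ℕ) {T T' : List (ι × Bool)} (h : T'.Sublist T) : MT q m T' ≤ MT q m T := by
  unfold MT
  apply Nat.mul_le_mul_left
  refine List.Sublist.prod_le_prod' (h.map _) ?_
  intro x hx
  obtain ⟨y, -, rfl⟩ := List.mem_map.mp hx
  show 1 ≤ if y.2 = true then 1 + q y.1 else 2
  split_ifs
  · exact Nat.le_add_right 1 _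
  · exact Nat.one_le_ofNat

end

theorem pei (hpel : PelStmt) (hspo : SpoStmt) : PeiStmt := by
  intro ι _ _ q _ p m g h L _ a α S sm lg hn J hJ
  classical
  obtain ⟨Cs, hCs⟩ : ∃ Cs : List ι → Finset (Pt q × Pt q), Cs = fun u =>
    Finset.univ.filter fun w => Om sm lg w ∧ ¬ Zr m g h α (ops u lg) w := ⟨_, rfl⟩
  have hmem : ∀ u w, w ∈ Cs u ↔ Om sm lg w ∧ ¬ Zr m g h α (ops u lg) w := by
    intro u w
    rw [hCs]
    simp only [Finset.mem_filter, Finset.mem_univ, true_and]
  refine ⟨Cs sm, Cs [], hmem sm, hmem [], ?_⟩
  have key : ∀ u : List ι, u.Sublist sm → (Cs []).card ≤ J ^ u.length * (Cs u).card := by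
    intro u
    induction u with
    | nil => intro _; simp
    | cons i u ih =>
      intro hu
      have hu' : u.Sublist sm := (List.sublist_cons_self i u).trans hu
      have hi : i ∈ sm := hu.subset List.mem_cons_self
      have hops : (ops u lg).Sublist (ops sm lg) :=
        List.Sublist.append (hu'.map _) (List.Sublist.refl _)
      have hfst : (ops u lg).map Prod.fst = u ++ lg := by
        simp [ops, Function.comp_def]
      obtain ⟨B, C, hB, hC, hcard⟩ := hpel ι q m g h L α i (ops u lg) J (MT q m (ops sm lg))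
        (Finset.univ.filter fun w => Om sm lg w)
        (by
          intro w hw
          simp only [Finset.mem_filter, Finset.mem_univ, true_and] at hw ⊢
          exact om_fr S.inj hn hi w hw)
        (by
          intro w _ w' _ h1 h2
          exact Prod.ext (fr_inj S.inj i _ _ h1) (fr_inj S.inj i _ _ h2))
        (by
          intro w hw
          simp only [Finset.mem_filter, Finset.mem_univ, true_and] at hw
          obtain ⟨e1, e2, e3, -, -⟩ := hspo ι q p m g h L a α S (ops u lg)
            (by rw [hfst]; exact hn.sublist (List.Sublist.append hu' (List.Sublist.refl _)))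
            w.1 w.2 hw.1 (by
              intro j hj
              have hj' : j ∈ lg := by
                simp only [ops, List.mem_append, List.mem_map, Prod.mk.injEq] at hj
                rcases hj with ⟨x, -, -, hx⟩ | ⟨x, hx, hx', -⟩
                · exact absurd hx (by decide)
                · exact hx' ▸ hx
              exact (hw.2.2 j hj').2)
          exact ⟨e1.trans (mt_le m hops), e2.trans (mt_le m hops), e3⟩)
        hJ
      have hBe : B = Cs (i :: u) := by
        ext w
        rw [hB, hmem]
        simp only [Finset.mem_filter, Finset.mem_univ, true_and]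
        rfl
      have hCe : C = Cs u := by
        ext w
        rw [hC, hmem]
        simp only [Finset.mem_filter, Finset.mem_univ, true_and]
      rw [hBe, hCe] at hcard
      calc (Cs []).card ≤ J ^ u.length * (Cs u).card := ih hu'
        _ ≤ J ^ u.length * (J * (Cs (i :: u)).card) := Nat.mul_le_mul_left _ hcard
        _ = J ^ (i :: u).length * (Cs (i :: u)).card := by
            rw [List.length_cons, pow_succ, mul_assoc]
  exact key sm (List.Sublist.refl _)

end Pool.Agent.CYE.H49
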